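import Pool.Agent.H47.FBLa

open Set Filter Topology MeasureTheory Pointwise

namespace Pool.Agent.Results.MP_93c18e_an.Octa

universe u v

variable {E : Type u} [NormedAddCommGroup E] [NormedSpace ℝ E]

/-- the numbers whose supremum is the free Banach lattice norm of `f` -/
def vals (f : StrongDual ℝ E → ℝ) : Set ℝ :=
  {s | ∃ (n : ℕ) (x : Fin n → StrongDual ℝ E),
    (∀ e : E, ‖e‖ ≤ 1 → ∑ i, |x i e| ≤ 1) ∧ s = ∑ i, |f (x i)|}

/-- the free Banach lattice norm -/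
noncomputable def nrm (f : StrongDual ℝ E → ℝ) : ℝ := sSup (vals f)

/-- the vector sublattice generated by the evaluations -/
inductive Gen : (StrongDual ℝ E → ℝ) → Prop
  | delta (x : E) : Gen fun φ => φ x
  | add {f g : StrongDual ℝ E → ℝ} : Gen f → Gen g → Gen fun φ => f φ + g φ
  | smul (c : ℝ) {f : StrongDual ℝ E → ℝ} : Gen f → Gen fun φ => c * f φ
  | sup {f g : StrongDual ℝ E → ℝ} : Gen f → Gen g → Gen fun φ => max (f φ) (g φ)
  | inf {f g : StrongDual ℝ E → ℝ} : Gen f → Gen g → Gen fun φ => min (f φ) (g φ)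

/-- membership in the free Banach lattice over `E` -/
def FBL (f : StrongDual ℝ E → ℝ) : Prop :=
  (∀ t : ℝ, 0 ≤ t → ∀ φ, f (t • φ) = t * f φ) ∧ BddAbove (vals f) ∧
    ∀ ε : ℝ, 0 < ε → ∃ g, Gen g ∧ nrm (f - g) < ε

open Pool.Agent.H47.FBL

theorem bdd_of_le {f g h : StrongDual ℝ E → ℝ} (c : ℝ) (hc : 0 ≤ c)
    (H : ∀ φ, |f φ| ≤ |g φ| + c * |h φ|)
    (hg : BddAbove (vals g)) (hh : BddAbove (vals h)) : BddAbove (vals f) := by
  obtain ⟨A, hA⟩ := hg
  obtain ⟨B, hB⟩ := hh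
  refine ⟨A + c * B, ?_⟩
  rintro _ ⟨n, x, hx, rfl⟩
  refine (Finset.sum_le_sum fun i _ => H (x i)).trans ?_
  rw [Finset.sum_add_distrib, ← Finset.mul_sum]
  exact add_le_add (hA ⟨n, x, hx, rfl⟩) (mul_le_mul_of_nonneg_left (hB ⟨n, x, hx, rfl⟩) hc)

theorem delta_le (e : E) : ∀ s ∈ vals (fun φ : StrongDual ℝ E => φ e), s ≤ ‖e‖ := by
  rintro _ ⟨n, x, hx, rfl⟩
  by_cases h : e = 0
  · simp [h]
  have hp : 0 < ‖e‖ := norm_pos_iff.2 h
  have := hx (‖e‖⁻¹ • e) (by rw [norm_smul, norm_inv, norm_norm]; exact inv_mul_le_one)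
  simp only [map_smul, smul_eq_mul, abs_mul, abs_inv, abs_norm, ← Finset.mul_sum] at this
  rwa [inv_mul_le_iff₀ hp, mul_one] at this

theorem Gen.props {g : StrongDual ℝ E → ℝ} (h : Gen g) :
    (∀ t : ℝ, 0 ≤ t → ∀ φ, g (t • φ) = t * g φ) ∧ BddAbove (vals g) ∧ Continuous g ∧
    ∃ S : Finset E, ∀ φ ψ : StrongDual ℝ E, (∀ e ∈ S, φ e = ψ e) → g φ = g ψ := by
  classical
  induction h with
  | delta x => exact ⟨fun t _ φ => rfl, ⟨_, delta_le x⟩, by fun_prop, {x},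
      fun φ ψ h => h x (by simp)⟩
  | smul c _ ih =>
    obtain ⟨a, b, d, S, e⟩ := ih
    exact ⟨fun t ht φ => by dsimp only; rw [a t ht]; ring,
      bdd_of_le |c| (abs_nonneg _) (fun φ => by rw [abs_mul]; simp) b b, by fun_prop, S,
      fun φ ψ h => by dsimp only; rw [e φ ψ h]⟩
  | add _ _ i1 i2 =>
    obtain ⟨a, b, d, S, e⟩ := i1
    obtain ⟨a', b', d', S', e'⟩ := i2
    exact ⟨fun t ht φ => by dsimp only; rw [a t ht, a' t ht]; ring,
      bdd_of_le 1 zero_le_one (fun φ => by rw [one_mul]; exact abs_add_le _ _) b b', by fun_prop,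
      S ∪ S', fun φ ψ h => by
        dsimp only
        rw [e φ ψ fun x hx => h x (by simp [hx]), e' φ ψ fun x hx => h x (by simp [hx])]⟩
  | sup _ _ i1 i2 =>
    obtain ⟨a, b, d, S, e⟩ := i1
    obtain ⟨a', b', d', S', e'⟩ := i2
    exact ⟨fun t ht φ => by dsimp only; rw [a t ht, a' t ht, mul_max_of_nonneg _ _ ht],
      bdd_of_le 1 zero_le_one (fun φ => by
        rw [one_mul]; exact abs_max_le_max_abs_abs.trans (by simp)) b b', by fun_prop,
      S ∪ S', fun φ ψ h => by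
        dsimp only
        rw [e φ ψ fun x hx => h x (by simp [hx]), e' φ ψ fun x hx => h x (by simp [hx])]⟩
  | inf _ _ i1 i2 =>
    obtain ⟨a, b, d, S, e⟩ := i1
    obtain ⟨a', b', d', S', e'⟩ := i2
    exact ⟨fun t ht φ => by dsimp only; rw [a t ht, a' t ht, mul_min_of_nonneg _ _ ht],
      bdd_of_le 1 zero_le_one (fun φ => by
        rw [one_mul]; exact abs_min_le_max_abs_abs.trans (by simp)) b b', by fun_prop,
      S ∪ S', fun φ ψ h => by
        dsimp only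
        rw [e φ ψ fun x hx => h x (by simp [hx]), e' φ ψ fun x hx => h x (by simp [hx])]⟩

theorem zero_mem (f : StrongDual ℝ E → ℝ) : (0 : ℝ) ∈ vals f :=
  ⟨0, fun i => i.elim0, by simp, by simp⟩

theorem nrm_smul (c : ℝ) (hc : 0 ≤ c) (f : StrongDual ℝ E → ℝ) :
    nrm (fun φ => c * f φ) = c * nrm f := by
  have : vals (fun φ => c * f φ) = c • vals f := by
    ext s
    simp only [vals, mem_smul_set, mem_ofPred_eq, abs_mul, abs_of_nonneg hc, ← Finset.mul_sum,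
      smul_eq_mul]
    constructor
    · rintro ⟨n, x, hx, rfl⟩; exact ⟨_, ⟨n, x, hx, rfl⟩, rfl⟩
    · rintro ⟨_, ⟨n, x, hx, rfl⟩, rfl⟩; exact ⟨n, x, hx, rfl⟩
  rw [nrm, this, Real.sSup_smul_of_nonneg hc]; rfl

/-- the octahedral direction -/
noncomputable def yy (x w : E) (M : ℝ) : StrongDual ℝ E → ℝ :=
  fun φ => max (min (M * φ w) (max (φ x) (-1 * φ x))) (-1 * max (φ x) (-1 * φ x))

theorem gen_yy (x w : E) (M : ℝ) : Gen (yy x w M) :=
  .sup (.inf (.smul M (.delta w)) (.sup (.delta x) (.smul _ (.delta x))))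
    (.smul _ (.sup (.delta x) (.smul _ (.delta x))))

theorem yy_eq (x w : E) (M : ℝ) (φ : StrongDual ℝ E) :
    yy x w M φ = max (min (M * φ w) |φ x|) (-|φ x|) := by
  simp only [yy, neg_mul, one_mul]; rfl

theorem key (hW : Disj (StrongDual ℝ E)) (F : Submodule ℝ E) (x w : E) (η : ℝ) (h0 : 0 < η)
    (h1 : η ≤ 1 / 100) (hx : ∀ v ∈ F, ∀ c : ℝ, (1 - 2 * η) * (‖v‖ + |c|) ≤ ‖v + c • x‖)
    (hw : ∀ v ∈ F ⊔ ℝ ∙ x, ∀ c : ℝ, (1 - 2 * η) * (‖v‖ + |c|) ≤ ‖v + c • w‖)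
    (f g : StrongDual ℝ E → ℝ) (hf : FBL f) (hf1 : nrm f = 1) (hg : Gen g) (hfg : nrm (f - g) < η)
    (hgF : ∀ φ ψ : StrongDual ℝ E, (∀ e ∈ F, φ e = ψ e) → g φ = g ψ) :
    ∃ M0 : ℝ, ∀ M, M0 ≤ M → ∀ c : ℝ, 1 ≤ c →
      2 - 23 * η < nrm (f + fun φ => c * yy x w M φ) := by
  obtain ⟨g1, g2, g3, -⟩ := hg.props
  have bfg : BddAbove (vals (f - g)) :=
    bdd_of_le 1 zero_le_one (fun φ => by rw [one_mul]; exact abs_sub _ _) hf.2.1 g2
  obtain ⟨_, ⟨m, p, hp, rfl⟩, p1⟩ := exists_lt_of_lt_csSup ⟨_, zero_mem f⟩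
    (show 1 - η < sSup (vals f) by rw [show sSup (vals f) = 1 from hf1]; linarith)
  obtain ⟨e, e1, e2⟩ : ∃ e : E, ‖e‖ ≤ 1 ∧ 1 - η < ∑ j, |p j e| := by
    by_contra hcon
    push Not at hcon
    have ht : 0 < 1 - η := by linarith
    have := le_csSup hf.2.1 ⟨m, fun j => (1 - η)⁻¹ • p j, fun e he => by
      simp only [smul_apply, smul_eq_mul, abs_mul, ← Finset.mul_sum,
        abs_of_nonneg (inv_nonneg.2 ht.le)]
      rw [inv_mul_le_iff₀ ht, mul_one]; exact hcon e he, rfl⟩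
    simp only [hf.1 _ (inv_nonneg.2 ht.le), abs_mul, ← Finset.mul_sum,
        abs_of_nonneg (inv_nonneg.2 ht.le), show sSup (vals f) = 1 from hf1] at this
    rw [inv_mul_le_iff₀ ht, mul_one] at this
    linarith
  have p2 : 1 - 2 * η < ∑ j, |g (p j)| := by
    have a := (le_csSup bfg ⟨m, p, hp, rfl⟩).trans_lt hfg
    have b : ∑ j, |f (p j)| ≤ ∑ j, (|(f - g) (p j)| + |g (p j)|) :=
      Finset.sum_le_sum fun j _ => by
        simpa using abs_add_le (f (p j) - g (p j)) (g (p j))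
    rw [Finset.sum_add_distrib] at b
    linarith
  obtain ⟨θ, t0, t1, t2⟩ : ∃ θ : ℝ, 0 < θ ∧ m * θ ≤ η ∧ ∀ h : Fin m → StrongDual ℝ E,
      (∀ j, ‖p j - h j‖ ≤ θ) → 1 - 2 * η < ∑ j, |g (h j)| ∧ 1 - η < ∑ j, |h j e| := by
    have o : IsOpen {h : Fin m → StrongDual ℝ E |
        1 - 2 * η < ∑ j, |g (h j)| ∧ 1 - η < ∑ j, |h j e|} :=
      IsOpen.inter (s := {h : Fin m → StrongDual ℝ E | 1 - 2 * η < ∑ j, |g (h j)|})
        (t := {h : Fin m → StrongDual ℝ E | 1 - η < ∑ j, |h j e|})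
        (isOpen_lt continuous_const (by fun_prop)) (isOpen_lt continuous_const (by fun_prop))
    obtain ⟨δ, d0, d1⟩ := Metric.isOpen_iff.1 o p ⟨p2, e2⟩
    have hm : (0 : ℝ) < m + 1 := by positivity
    refine ⟨min (δ / 2) (η / (m + 1)), by positivity, ?_, fun h hh => d1 ?_⟩
    · calc (m : ℝ) * min (δ / 2) (η / (m + 1)) ≤ (m + 1) * (η / (m + 1)) := by
            gcongr
            · linarith
            · exact min_le_right _ _
        _ = η := by field_simp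
    · rw [Metric.mem_ball, dist_pi_lt_iff d0]
      intro j
      rw [dist_comm, dist_eq_norm]
      linarith [hh j, min_le_left (δ / 2) (η / (m + 1))]
  obtain ⟨K, u, a, u1, u2, u3, u4⟩ := hW m p θ t0
  set h : Fin m → StrongDual ℝ E := fun j => ∑ k, a j k • u k with hh
  obtain ⟨t3, t4⟩ := t2 h u2
  have r0 : 0 < 1 - 2 * η := by linarith
  have hxm : x ∈ F ⊔ ℝ ∙ x := Submodule.mem_sup_right (Submodule.mem_span_singleton_self _)
  have hu : ∀ k, ∃ u' : StrongDual ℝ E, ‖u'‖ ≤ 1 + 5 * η ∧ (∀ v ∈ F, u' v = u k v) ∧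
      u' x = u k e ∧ u' w = 0 := fun k => by
    obtain ⟨v1, a1, a2, a3⟩ := extend F x _ r0 hx (u k) (u k e) 1 (u1 k)
      (((u k).le_opNorm e).trans (mul_le_one₀ (u1 k) (norm_nonneg _) e1))
    obtain ⟨v2, b1, b2, b3⟩ := extend _ w _ r0 hw v1 0 _ a1 (by simp [r0.le])
    refine ⟨v2, b1.trans ?_, fun v hv => (b2 v (Submodule.mem_sup_left hv)).trans (a2 v hv),
      (b2 x hxm).trans a3, b3⟩
    rw [div_le_iff₀ r0, div_le_iff₀ r0]; nlinarith [mul_pos h0 h0]
  choose u' v1 v2 v3 v4 using hu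
  obtain ⟨φ, f1, f2, f3⟩ := extend _ w _ r0 hw 0 1 1 (by simp) (by simp)
  have f1' : ‖φ‖ ≤ 2 := f1.trans (by rw [div_le_iff₀ r0]; linarith)
  let s : Fin m → ℝ := fun j => if 0 ≤ g (h j) then 1 else -1
  have s1 : ∀ j, |s j| = 1 := fun j => by simp only [s]; split_ifs <;> simp
  let z : Fin m → StrongDual ℝ E := fun j => ∑ k, a j k • u' k + (θ * s j) • φ
  have z1 : ∀ j, g (z j) = g (h j) := fun j => hgF _ _ fun v hv => by
    simp [z, hh, v2 _ v hv, f2 v (Submodule.mem_sup_left hv)]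
  have z2 : ∀ j, z j x = h j e := fun j => by simp [z, hh, v3, f2 x hxm]
  have z3 : ∀ j, z j w = θ * s j := fun j => by simp [z, v4, f3]
  have z4 : ∀ y : E, ‖y‖ ≤ 1 → ∑ j, |z j y| ≤ 1 + 9 * η := by
    intro y hy
    let σ : Fin m → ℝ := fun j => if 0 ≤ ∑ k, a j k * u' k y then 1 else -1
    have σ1 : ∀ j, |σ j| = 1 := fun j => by simp only [σ]; split_ifs <;> simp
    have q1 : ∀ j, |z j y| ≤ σ j * ∑ k, a j k * u' k y + θ * 2 := fun j => by
      have : z j y = ∑ k, a j k * u' k y + θ * s j * φ y := by simp [z]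
      rw [this]
      refine (abs_add_le _ _).trans (add_le_add (le_of_eq ?_) ?_)
      · simp only [σ]; split_ifs with hc
        · rw [abs_of_nonneg hc, one_mul]
        · rw [abs_of_neg (not_le.1 hc)]; ring
      · rw [abs_mul, abs_mul, s1, abs_of_pos t0, mul_one]
        exact mul_le_mul_of_nonneg_left ((φ.le_opNorm y).trans
          ((mul_le_of_le_one_right (norm_nonneg _) hy).trans f1')) t0.le
    have q2 : ∑ j, σ j * ∑ k, a j k * u' k y = ∑ k, (∑ j, σ j * a j k) * u' k y := by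
      simp only [Finset.mul_sum, Finset.sum_mul, mul_assoc]; exact Finset.sum_comm
    have q3 : ∑ k, (∑ j, σ j * a j k) * u' k y ≤ (∑ k, |∑ j, σ j * a j k|) * (1 + 5 * η) := by
      rw [Finset.sum_mul]
      refine Finset.sum_le_sum fun k _ => (le_abs_self _).trans ?_
      rw [abs_mul]
      exact mul_le_mul_of_nonneg_left (((u' k).le_opNorm y).trans
          ((mul_le_of_le_one_right (norm_nonneg _) hy).trans (v1 k))) (abs_nonneg _)
    have q4 := u4 (fun k => ∑ j, σ j * a j k) fun k hk => by simp [u3 _ k hk]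
    have q5 : ∑ k, (∑ j, σ j * a j k) • u k = ∑ j, σ j • p j - ∑ j, σ j • (p j - h j) := by
      rw [← Finset.sum_sub_distrib]
      simp only [smul_sub, sub_sub_cancel, hh, Finset.smul_sum, Finset.sum_smul, smul_smul]
      exact Finset.sum_comm
    have q6 : ‖∑ j, σ j • p j‖ ≤ 1 := by
      refine ContinuousLinearMap.opNorm_le_of_unit_norm zero_le_one fun y hy => ?_
      refine le_trans ?_ (hp y hy.le)
      rw [sum_apply]
      refine (norm_sum_le _ _).trans (Finset.sum_le_sum fun j _ => ?_)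
      rw [smul_apply, smul_eq_mul, Real.norm_eq_abs, abs_mul, σ1, one_mul]
    have q7 : ‖∑ j, σ j • (p j - h j)‖ ≤ m * θ := by
      refine (norm_sum_le _ _).trans ?_
      simpa using Finset.sum_le_card_nsmul Finset.univ (fun j => ‖σ j • (p j - h j)‖) θ
        fun j _ => by rw [norm_smul, Real.norm_eq_abs, σ1, one_mul]; exact u2 j
    have q8 := norm_sub_le (∑ j, σ j • p j) (∑ j, σ j • (p j - h j))
    rw [q5] at q4
    have q9 := Finset.sum_le_sum fun j (_ : j ∈ Finset.univ) => q1 j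
    rw [Finset.sum_add_distrib, q2] at q9
    simp only [Finset.sum_const, Finset.card_univ, Fintype.card_fin, nsmul_eq_mul] at q9
    have q10 : (∑ k, |∑ j, σ j * a j k|) * (1 + 5 * η) ≤ (1 + η) * (1 + 5 * η) :=
      mul_le_mul_of_nonneg_right (by linarith) (by linarith)
    nlinarith
  refine ⟨(∑ j, |h j e|) / θ, fun M hM c hc => ?_⟩
  have y1 : ∀ j, yy x w M (z j) = s j * |h j e| := fun j => by
    have : |h j e| ≤ M * θ := by
      rw [div_le_iff₀ t0] at hM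
      exact (Finset.single_le_sum (f := fun j => |h j e|) (fun _ _ => abs_nonneg _)
        (Finset.mem_univ j)).trans hM
    have a0 := abs_nonneg (h j e)
    rw [yy_eq, z2, z3]
    simp only [s]; split_ifs
    · rw [mul_one, min_eq_right this, max_eq_left (by linarith), one_mul]
    · rw [min_eq_left (by linarith), max_eq_right (by linarith)]; ring
  obtain ⟨y2, y3, -⟩ := (gen_yy x w M).props
  have R0 : 0 < 1 + 9 * η := by linarith
  have adm : ∀ y : E, ‖y‖ ≤ 1 → ∑ j, |((1 + 9 * η)⁻¹ • z j) y| ≤ 1 := fun y hy => by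
    simp only [smul_apply, smul_eq_mul, abs_mul, ← Finset.mul_sum,
      abs_of_nonneg (inv_nonneg.2 R0.le)]
    rw [inv_mul_le_iff₀ R0, mul_one]; exact z4 y hy
  have b1 := le_csSup (bdd_of_le (f := f + fun φ => c * yy x w M φ) c (by linarith) (fun φ => by
    refine (abs_add_le _ _).trans ?_
    rw [abs_mul, abs_of_nonneg (by linarith : 0 ≤ c)]) hf.2.1 y3) ⟨m, _, adm, rfl⟩
  have b2 := (le_csSup bfg ⟨m, _, adm, rfl⟩).trans_lt hfg
  have b3 : ∀ j, (1 + 9 * η)⁻¹ * (|g (h j)| + |h j e|) ≤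
      |(f + fun φ => c * yy x w M φ) ((1 + 9 * η)⁻¹ • z j)| + |(f - g) ((1 + 9 * η)⁻¹ • z j)| := by
    intro j
    refine le_trans ?_ (abs_sub _ _)
    have : (f + fun φ => c * yy x w M φ) ((1 + 9 * η)⁻¹ • z j) - (f - g) ((1 + 9 * η)⁻¹ • z j) =
        (1 + 9 * η)⁻¹ * (g (h j) + c * (s j * |h j e|)) := by
      simp only [Pi.add_apply, Pi.sub_apply]
      rw [g1 _ (inv_nonneg.2 R0.le), y2 _ (inv_nonneg.2 R0.le), z1, y1]; ring
    rw [this, abs_mul, abs_of_nonneg (inv_nonneg.2 R0.le)]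
    refine mul_le_mul_of_nonneg_left ?_ (inv_nonneg.2 R0.le)
    have a0 := abs_nonneg (h j e)
    have a1 : |h j e| ≤ c * |h j e| := le_mul_of_one_le_left a0 hc
    simp only [s]; split_ifs with hs
    · rw [abs_of_nonneg hs]; refine le_trans (by linarith) (le_abs_self _)
    · rw [abs_of_neg (not_le.1 hs)]; refine le_trans (by linarith) (neg_le_abs _)
  have b4 := Finset.sum_le_sum fun j (_ : j ∈ Finset.univ) => b3 j
  rw [← Finset.mul_sum, Finset.sum_add_distrib, Finset.sum_add_distrib] at b4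
  have b5 : 2 - 22 * η ≤ (1 + 9 * η)⁻¹ * (∑ j, |g (h j)| + ∑ j, |h j e|) := by
    rw [le_inv_mul_iff₀ R0]; nlinarith
  unfold nrm at hfg ⊢
  linarith

theorem result (E : Type u) [NormedAddCommGroup E] [NormedSpace ℝ E] [CompleteSpace E]
    [Nontrivial E]
    (hL : ∃ (Ω : Type v) (_ : MeasurableSpace Ω) (μ : Measure Ω),
      Nonempty (StrongDual ℝ E ≃ₗᵢ[ℝ] Lp ℝ 1 μ))
    (hD : ∀ T : E →L[ℝ] E, Module.finrank ℝ (LinearMap.range (T : E →ₗ[ℝ] E)) = 1 →
      ‖1 + T‖ = 1 + ‖T‖)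
    (n : ℕ) (f : Fin n → StrongDual ℝ E → ℝ) (hf : ∀ i, FBL (f i) ∧ nrm (f i) = 1)
    (ε : ℝ) (hε : 0 < ε) :
    ∃ y, FBL y ∧ nrm y = 1 ∧ ∀ i, 2 - ε < nrm (f i + y) := by
  classical
  obtain ⟨Ω, _, μ, ⟨e⟩⟩ := hL
  have hW : Disj (StrongDual ℝ E) := (disj_L1 μ).of_equiv e
  obtain ⟨η, h0, h1, h2⟩ : ∃ η : ℝ, 0 < η ∧ η ≤ 1 / 100 ∧ 23 * η ≤ ε :=
    ⟨min (1 / 100) (ε / 23), by positivity, min_le_left _ _,
      by linarith [min_le_right (1 / 100) (ε / 23)]⟩
  choose g hg hfg using fun i => (hf i).1.2.2 η h0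
  choose S hS using fun i => (hg i).props.2.2.2
  let F : Submodule ℝ E := Submodule.span ℝ (Finset.univ.biUnion S : Finset E)
  obtain ⟨x, x1, hx⟩ := octa hD F η h0 (by linarith)
  obtain ⟨w, -, hw⟩ := octa hD (F ⊔ ℝ ∙ x) η h0 (by linarith)
  choose M0 hM using fun i => key hW F x w η h0 h1 hx hw (f i) (g i) (hf i).1 (hf i).2 (hg i)
    (hfg i) fun φ ψ h => hS i φ ψ fun e he => h e (Submodule.subset_span (by
      simp only [Finset.coe_biUnion, mem_iUnion]; exact ⟨i, by simp, he⟩))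
  let M : ℝ := 1 + ∑ i, |M0 i|
  have M1 : 1 ≤ M := le_add_of_nonneg_right (Finset.sum_nonneg fun _ _ => abs_nonneg _)
  have M2 : ∀ i, M0 i ≤ M := fun i => by
    have := Finset.single_le_sum (f := fun i => |M0 i|) (fun _ _ => abs_nonneg _)
      (Finset.mem_univ i)
    linarith [le_abs_self (M0 i)]
  have c1 : nrm (yy x w M) ≤ 1 := csSup_le ⟨_, zero_mem _⟩ (by
    rintro _ ⟨m, p, hp, rfl⟩
    refine le_trans (Finset.sum_le_sum fun j _ => ?_) (hp x x1.le)
    rw [yy_eq, abs_le]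
    exact ⟨le_max_right _ _, max_le (min_le_right _ _) (by linarith [abs_nonneg (p j x)])⟩)
  have c0 : 0 < nrm (yy x w M) := by
    have r0 : 0 < 1 - 2 * η := by linarith
    obtain ⟨g0, a1, a2⟩ := exists_dual_vector'' ℝ x
    obtain ⟨ψ, b1, b2, b3⟩ := extend _ w _ r0 hw g0 1 1 a1 (by simp)
    have b4 : ψ x = 1 := by
      rw [b2 x (Submodule.mem_sup_right (Submodule.mem_span_singleton_self _)), a2]; simp [x1]
    have b5 : ‖ψ‖ ≤ 2 := b1.trans (by rw [div_le_iff₀ r0]; linarith)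
    refine lt_of_lt_of_le ?_ (le_csSup (gen_yy x w M).props.2.1
      ⟨1, fun _ => (1 / 2 : ℝ) • ψ, fun y hy => ?_, rfl⟩)
    · rw [Fin.sum_univ_one, (gen_yy x w M).props.1 _ (by norm_num), yy_eq, b3, b4, abs_one,
        mul_one, min_eq_right M1]
      norm_num
    · have := (ψ.le_opNorm y).trans ((mul_le_of_le_one_right (norm_nonneg _) hy).trans b5)
      rw [Fin.sum_univ_one, smul_apply, smul_eq_mul, abs_mul, abs_of_pos (by norm_num)]
      rw [Real.norm_eq_abs] at this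
      linarith
  have gy := (gen_yy x w M).smul (nrm (yy x w M))⁻¹
  refine ⟨_, ⟨gy.props.1, gy.props.2.1, fun δ hδ => ⟨_, gy, ?_⟩⟩, ?_, fun i => ?_⟩
  · have := nrm_smul 0 le_rfl (yy x w M)
    simp only [zero_mul] at this
    rw [sub_self]
    exact lt_of_eq_of_lt this hδ
  · rw [nrm_smul _ (inv_nonneg.2 c0.le), inv_mul_cancel₀ c0.ne']
  · exact lt_of_le_of_lt (by linarith) (hM i M (M2 i) _ ((one_le_inv₀ c0).2 c1))

end Pool.Agent.Results.MP_93c18e_an.Octa
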